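import Pool.Agent.Q211.HV.N2

/-!
Project HV (helper67): job HV-B, the estimate in space.
-/

set_option autoImplicit false

open MeasureTheory Set Metric Filter Topology
open scoped InnerProductSpace ENNReal ContDiff NNReal
open H772R2.NS Pool.Agent.Q67.HV

namespace Pool.Agent.Q211.HV

theorem one_le_s (a : E3) : 1 ≤ 1 + ‖a‖ ^ 2 := by nlinarith [sq_nonneg ‖a‖]

theorem sqrt_ge (a : E3) : 1 ≤ √(1 + ‖a‖ ^ 2) := by
  rw [← Real.sqrt_one]
  exact Real.sqrt_le_sqrt (by rw [Real.sqrt_one]; exact one_le_s a)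

theorem norm_le_s (a : E3) : ‖a‖ ≤ √(1 + ‖a‖ ^ 2) := by
  refine Real.le_sqrt_of_sq_le ?_
  linarith

theorem s_le (a : E3) : √(1 + ‖a‖ ^ 2) ≤ 1 + ‖a‖ := by
  rw [Real.sqrt_le_left (by positivity)]
  nlinarith [norm_nonneg a]

theorem log_half (a : E3) : Real.log (1 + ‖a‖ ^ 2) / 2 = Real.log (√(1 + ‖a‖ ^ 2)) := by
  rw [Real.log_sqrt (by positivity)]

theorem Phi_ge (a : E3) : ‖a‖ ≤ Phi a := by
  unfold Phi
  rw [log_half]
  have h1 := Real.log_le_sub_one_of_pos (lt_of_lt_of_le one_pos (sqrt_ge a))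
  have h2 := norm_le_s a
  linarith

theorem Phi_nonneg (a : E3) : 0 ≤ Phi a := (norm_nonneg a).trans (Phi_ge a)

theorem Phi_le (a : E3) : Phi a ≤ 2 * (1 + ‖a‖) := by
  unfold Phi
  have h1 : 0 ≤ Real.log (1 + ‖a‖ ^ 2) := Real.log_nonneg (one_le_s a)
  have h2 := s_le a
  linarith

theorem Phi_le2 (a : E3) : Phi a ≤ 3 + ‖a‖ ^ 2 := by
  have := Phi_le a
  nlinarith [sq_nonneg (‖a‖ - 1)]

theorem Phi_cont : Continuous Phi := by
  unfold Phi
  refine Continuous.sub ?_ ?_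
  · exact continuous_const.mul (continuous_const.add (continuous_norm.pow 2)).sqrt
  · refine (Continuous.log (continuous_const.add (continuous_norm.pow 2)) fun a => ?_).div_const _
    have := one_le_s a
    positivity

theorem gPhi_le (a : E3) (i : Fin 3) : |gPhi a i| ≤ 2 := by
  unfold gPhi
  have hs := sqrt_ge a
  have h0 : 0 < √(1 + ‖a‖ ^ 2) := lt_of_lt_of_le one_pos hs
  have h1 : |a i| ≤ √(1 + ‖a‖ ^ 2) := by
    have := PiLp.norm_apply_le a i
    rw [Real.norm_eq_abs] at this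
    exact this.trans (norm_le_s a)
  have h2 : (1 + ‖a‖ ^ 2) = √(1 + ‖a‖ ^ 2) ^ 2 := (Real.sq_sqrt (by positivity)).symm
  rw [abs_mul]
  nth_rewrite 2 [h2]
  have h3 : |2 / √(1 + ‖a‖ ^ 2) - 1 / √(1 + ‖a‖ ^ 2) ^ 2| ≤ 2 / √(1 + ‖a‖ ^ 2) := by
    have p1 : 0 < 1 / √(1 + ‖a‖ ^ 2) ^ 2 := by positivity
    have p2 : 1 / √(1 + ‖a‖ ^ 2) ^ 2 ≤ 2 / √(1 + ‖a‖ ^ 2) := by
      rw [div_le_div_iff₀ (by positivity) h0]
      nlinarith
    rw [abs_of_nonneg (by linarith)]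
    linarith
  calc _ ≤ 2 / √(1 + ‖a‖ ^ 2) * √(1 + ‖a‖ ^ 2) :=
        mul_le_mul h3 h1 (abs_nonneg _) (by positivity)
    _ = 2 := by field_simp

theorem gPhi_cont (i : Fin 3) : Continuous fun a => gPhi a i := by
  unfold gPhi
  have hs : Continuous fun a : E3 => √(1 + ‖a‖ ^ 2) :=
    (continuous_const.add (continuous_norm.pow 2)).sqrt
  refine Continuous.mul (Continuous.sub ?_ ?_) ?_
  · refine continuous_const.div hs fun a => ?_
    have := sqrt_ge a
    positivity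
  · refine continuous_const.div (continuous_const.add (continuous_norm.pow 2)) fun a => ?_
    have := one_le_s a
    positivity
  · exact (EuclideanSpace.proj i : E3 →L[ℝ] ℝ).continuous

/-- the fixed cut-off -/
noncomputable def chi0 {R : ℝ} (hR : 0 < R) : ContDiffBump (0 : E3) := ⟨R, 2 * R, hR, by linarith⟩

/-- the cut-off around `x₀` -/
noncomputable def chi {R : ℝ} (hR : 0 < R) (x₀ x : E3) : ℝ := chi0 hR (x - x₀)

theorem cs_chi0 {R : ℝ} (hR : 0 < R) : CS (chi0 hR) := ⟨(chi0 hR).contDiff, (chi0 hR).hasCompactSupport⟩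

theorem cs_chi {R : ℝ} (hR : 0 < R) (x₀ : E3) : CS (chi hR x₀) :=
  ⟨(cs_chi0 hR).1.comp (contDiff_id.sub contDiff_const),
    (cs_chi0 hR).2.comp_homeomorph (Homeomorph.subRight x₀)⟩

theorem cut_chi {R : ℝ} (hR : 0 < R) (x₀ : E3) : Cut (chi hR x₀) :=
  ⟨(cs_chi hR x₀).1, (cs_chi hR x₀).2, fun _ => (chi0 hR).nonneg, fun _ => (chi0 hR).le_one⟩

theorem chi_one {R : ℝ} (hR : 0 < R) (x₀ x : E3) (hx : x ∈ ball x₀ R) : chi hR x₀ x = 1 := by
  refine (chi0 hR).one_of_mem_closedBall ?_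
  rw [mem_closedBall, dist_zero_right, ← dist_eq_norm]
  exact (mem_ball.1 hx).le

theorem chi_zero {R : ℝ} (hR : 0 < R) (x₀ x : E3) (hx : x ∉ closedBall x₀ (2 * R)) :
    chi hR x₀ x = 0 := by
  refine (chi0 hR).zero_of_le_dist ?_
  rw [mem_closedBall, not_le] at hx
  rw [dist_zero_right, ← dist_eq_norm]
  exact hx.le

theorem pd_chi {R : ℝ} (hR : 0 < R) (x₀ x : E3) (j : Fin 3) :
    fderiv ℝ (chi hR x₀) x (ev j) = pd j (chi0 hR) (x - x₀) := by
  unfold chi pd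
  rw [fderiv_comp_sub]

theorem lapl_chi {R : ℝ} (hR : 0 < R) (x₀ x : E3) :
    lapl (chi hR x₀) x = ∑ j, pd j (pd j (chi0 hR)) (x - x₀) := by
  unfold lapl
  refine Finset.sum_congr rfl fun j _ => ?_
  have h : (fun y => fderiv ℝ (chi hR x₀) y (ev j)) = fun y => pd j (chi0 hR) (y - x₀) :=
    funext fun y => pd_chi hR x₀ y j
  rw [h, fderiv_comp_sub]
  rfl

theorem cs_bound {g : E3 → ℝ} (hg : CS g) : ∃ C : ℝ, 0 ≤ C ∧ ∀ x, |g x| ≤ C := by
  obtain ⟨C, hC⟩ := hg.2.exists_bound_of_continuous hg.1.continuous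
  exact ⟨C, (norm_nonneg _).trans (hC 0), fun x => hC x⟩

theorem chi0_supp {R : ℝ} (hR : 0 < R) : ∀ x : E3, 2 * R < ‖x‖ → chi0 hR x = 0 := by
  intro x hx
  refine (chi0 hR).zero_of_le_dist ?_
  rw [dist_zero_right]
  exact hx.le

theorem not_mem_ball {x₀ x : E3} {r : ℝ} (hx : x ∉ closedBall x₀ r) : r < ‖x - x₀‖ := by
  rw [mem_closedBall, not_le, dist_eq_norm] at hx
  exact hx

/-- the bound of the derivatives of the cut-off -/
theorem chi_bound {R : ℝ} (hR : 0 < R) : ∃ A : ℝ, 0 ≤ A ∧ ∀ (x₀ x : E3),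
    |lapl (chi hR x₀) x| ≤ (closedBall x₀ (2 * R)).indicator (fun _ => A) x ∧
    ∀ j, |fderiv ℝ (chi hR x₀) x (ev j)| ≤ (closedBall x₀ (2 * R)).indicator (fun _ => A) x := by
  choose A1 hA1 hB1 using fun j => cs_bound ((cs_chi0 hR).pd j)
  choose A2 hA2 hB2 using fun j => cs_bound (((cs_chi0 hR).pd j).pd j)
  refine ⟨(∑ j, A1 j) + ∑ j, A2 j, by
    have := Finset.sum_nonneg fun j (_ : j ∈ Finset.univ) => hA1 j
    have := Finset.sum_nonneg fun j (_ : j ∈ Finset.univ) => hA2 j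
    positivity, fun x₀ x => ?_⟩
  have s1 := Finset.sum_nonneg fun j (_ : j ∈ Finset.univ) => hA1 j
  have s2 := Finset.sum_nonneg fun j (_ : j ∈ Finset.univ) => hA2 j
  by_cases hx : x ∈ closedBall x₀ (2 * R)
  · rw [indicator_of_mem hx]
    refine ⟨?_, fun j => ?_⟩
    · rw [lapl_chi]
      refine (Finset.abs_sum_le_sum_abs _ _).trans ?_
      have := Finset.sum_le_sum fun j (_ : j ∈ Finset.univ) => hB2 j (x - x₀)
      linarith
    · rw [pd_chi]
      have h1 := hB1 j (x - x₀)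
      have h2 := Finset.single_le_sum (fun j (_ : j ∈ Finset.univ) => hA1 j) (Finset.mem_univ j)
      linarith
  · rw [indicator_of_notMem hx]
    have h0 := not_mem_ball hx
    refine ⟨?_, fun j => ?_⟩
    · rw [lapl_chi, Finset.sum_eq_zero fun j _ =>
        pd_zero_of (pd_zero_of (chi0_supp hR) j) j _ h0, abs_zero]
    · rw [pd_chi, pd_zero_of (chi0_supp hR) j _ h0, abs_zero]

end Pool.Agent.Q211.HV
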