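import Pool.Agent.Q211.HV.B1

/-!
Project HV (helper67): job HV-B, the estimate in space.
-/

set_option autoImplicit false

open MeasureTheory Set Metric Filter Topology
open scoped InnerProductSpace ENNReal ContDiff NNReal
open H772R2.NS Pool.Agent.Q67.HV

namespace Pool.Agent.Q211.HV

/-- the volume of the ball -/
noncomputable def Vl (r : ℝ) : ℝ := (volume : Measure E3).real (closedBall (0 : E3) r)

theorem Vl_nonneg (r : ℝ) : 0 ≤ Vl r := measureReal_nonneg

theorem int_ball {h : E3 → ℝ} (hh : Integrable h) (h0 : ∀ x, 0 ≤ h x) (c : ℝ) (x₀ : E3) (r : ℝ) :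
    Integrable ((closedBall x₀ r).indicator fun x => c + h x) ∧
      ∫ x, (closedBall x₀ r).indicator (fun x => c + h x) x ≤ c * Vl r + ∫ x, h x := by
  have hfin : volume (closedBall x₀ r) ≠ (⊤ : ℝ≥0∞) := measure_closedBall_lt_top.ne
  have i1 : IntegrableOn (fun _ : E3 => c) (closedBall x₀ r) := integrableOn_const hfin
  have i2 : IntegrableOn h (closedBall x₀ r) := hh.integrableOn
  refine ⟨(integrable_indicator_iff measurableSet_closedBall).2 (i1.add i2), ?_⟩
  rw [integral_indicator measurableSet_closedBall, integral_add i1 i2, setIntegral_const, smul_eq_mul,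
    mul_comm]
  have e : (volume : Measure E3).real (closedBall x₀ r) = Vl r := by
    unfold Vl Measure.real
    rw [Measure.addHaar_closedBall_center]
  rw [e]
  have := setIntegral_le_integral (s := closedBall x₀ r) hh (Eventually.of_forall h0)
  linarith

theorem sq_int {v : E3 → E3} (hv : MemLp v 2 (volume : Measure E3)) :
    Integrable (fun x => ‖v x‖ ^ 2) := hv.integrable_norm_pow (by norm_num)

theorem abs_coord_le (a : E3) (j : Fin 3) : |a j| ≤ ‖a‖ := by
  have := PiLp.norm_apply_le a j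
  rwa [Real.norm_eq_abs] at this

section

variable {ν R M : ℝ}

/-- first term -/
theorem term_a (hR : 0 < R) {A : ℝ} (hA : 0 ≤ A) (hb : ∀ (x₀ x : E3),
    |lapl (chi hR x₀) x| ≤ (closedBall x₀ (2 * R)).indicator (fun _ => A) x ∧
    ∀ j, |fderiv ℝ (chi hR x₀) x (ev j)| ≤ (closedBall x₀ (2 * R)).indicator (fun _ => A) x)
    {W : E3 → E3} (hW : MemLp W 2 (volume : Measure E3)) (x₀ : E3) :
    ∫ x, Phi (W x) * |lapl (chi hR x₀) x| ≤ A * (3 * Vl (2 * R) + ∫ x, ‖W x‖ ^ 2) := by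
  obtain ⟨i1, i2⟩ := int_ball (sq_int hW) (fun x => sq_nonneg _) 3 x₀ (2 * R)
  calc ∫ x, Phi (W x) * |lapl (chi hR x₀) x| ≤
        ∫ x, A * (closedBall x₀ (2 * R)).indicator (fun x => 3 + ‖W x‖ ^ 2) x := by
        refine integral_mono_of_nonneg (Eventually.of_forall fun x =>
          mul_nonneg (Phi_nonneg _) (abs_nonneg _)) (i1.const_mul A) (Eventually.of_forall fun x => ?_)
        have h1 := (hb x₀ x).1
        change Phi (W x) * |lapl (chi hR x₀) x| ≤ A * (closedBall x₀ (2 * R)).indicator _ x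
        by_cases hx : x ∈ closedBall x₀ (2 * R)
        · rw [indicator_of_mem hx] at h1 ⊢
          rw [mul_comm A]
          exact mul_le_mul (Phi_le2 _) h1 (abs_nonneg _) (by positivity)
        · rw [indicator_of_notMem hx] at h1 ⊢
          have h2 : |lapl (chi hR x₀) x| = 0 := le_antisymm h1 (abs_nonneg _)
          rw [h2, mul_zero, mul_zero]
    _ = A * ∫ x, (closedBall x₀ (2 * R)).indicator (fun x => 3 + ‖W x‖ ^ 2) x := integral_const_mul _ _
    _ ≤ _ := mul_le_mul_of_nonneg_left i2 hA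

/-- second term -/
theorem term_b (hR : 0 < R) {A : ℝ} (hA : 0 ≤ A) (hb : ∀ (x₀ x : E3),
    |lapl (chi hR x₀) x| ≤ (closedBall x₀ (2 * R)).indicator (fun _ => A) x ∧
    ∀ j, |fderiv ℝ (chi hR x₀) x (ev j)| ≤ (closedBall x₀ (2 * R)).indicator (fun _ => A) x)
    {W v : E3 → E3} (hW : MemLp W 2 (volume : Measure E3)) (hv : MemLp v 2 (volume : Measure E3))
    (x₀ : E3) :
    |∫ x, Phi (W x) * ∑ j, v x j * fderiv ℝ (chi hR x₀) x (ev j)| ≤
      3 * A * (2 * Vl (2 * R) + (2 * (∫ x, ‖W x‖ ^ 2) + ∫ x, ‖v x‖ ^ 2)) := by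
  have j1 : Integrable (fun x => 2 * ‖W x‖ ^ 2 + ‖v x‖ ^ 2) := ((sq_int hW).const_mul 2).add (sq_int hv)
  obtain ⟨i1, i2⟩ := int_ball j1 (fun x => by positivity) 2 x₀ (2 * R)
  rw [integral_add ((sq_int hW).const_mul 2) (sq_int hv), integral_const_mul] at i2
  refine (abs_integral_le_integral_abs).trans ?_
  calc ∫ x, |Phi (W x) * ∑ j, v x j * fderiv ℝ (chi hR x₀) x (ev j)| ≤
        ∫ x, 3 * A * (closedBall x₀ (2 * R)).indicator (fun x => 2 + (2 * ‖W x‖ ^ 2 + ‖v x‖ ^ 2)) x := by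
        refine integral_mono_of_nonneg (Eventually.of_forall fun x => abs_nonneg _)
          (i1.const_mul (3 * A)) (Eventually.of_forall fun x => ?_)
        have h1 := (hb x₀ x).2
        change |Phi (W x) * ∑ j, v x j * fderiv ℝ (chi hR x₀) x (ev j)| ≤
          3 * A * (closedBall x₀ (2 * R)).indicator _ x
        by_cases hx : x ∈ closedBall x₀ (2 * R)
        · rw [indicator_of_mem hx]
          simp only [indicator_of_mem hx] at h1
          have h2 : |∑ j, v x j * fderiv ℝ (chi hR x₀) x (ev j)| ≤ 3 * (‖v x‖ * A) := by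
            refine (Finset.abs_sum_le_sum_abs _ _).trans ?_
            have h3 : ∀ j ∈ (Finset.univ : Finset (Fin 3)),
                |v x j * fderiv ℝ (chi hR x₀) x (ev j)| ≤ ‖v x‖ * A := fun j _ => by
              rw [abs_mul]
              exact mul_le_mul (abs_coord_le _ _) (h1 j) (abs_nonneg _) (norm_nonneg _)
            refine (Finset.sum_le_sum h3).trans (le_of_eq ?_)
            rw [Finset.sum_const, Finset.card_univ, Fintype.card_fin, nsmul_eq_mul]
            norm_num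
          rw [abs_mul, abs_of_nonneg (Phi_nonneg _)]
          calc Phi (W x) * |∑ j, v x j * fderiv ℝ (chi hR x₀) x (ev j)| ≤
              (2 * (1 + ‖W x‖)) * (3 * (‖v x‖ * A)) :=
                mul_le_mul (Phi_le _) h2 (abs_nonneg _) (by positivity)
            _ = 3 * A * (2 * (1 + ‖W x‖) * ‖v x‖) := by ring
            _ ≤ 3 * A * (2 + (2 * ‖W x‖ ^ 2 + ‖v x‖ ^ 2)) := by
                refine mul_le_mul_of_nonneg_left ?_ (by positivity)
                nlinarith [sq_nonneg (1 + ‖W x‖ - ‖v x‖), sq_nonneg (1 - ‖W x‖)]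
        · rw [indicator_of_notMem hx]
          simp only [indicator_of_notMem hx] at h1
          have h2 : ∀ j, fderiv ℝ (chi hR x₀) x (ev j) = 0 := fun j =>
            abs_nonpos_iff.1 (h1 j)
          simp only [h2, mul_zero, Finset.sum_const_zero, abs_zero, le_refl]
    _ = 3 * A * ∫ x, (closedBall x₀ (2 * R)).indicator (fun x => 2 + (2 * ‖W x‖ ^ 2 + ‖v x‖ ^ 2)) x :=
        integral_const_mul _ _
    _ ≤ _ := mul_le_mul_of_nonneg_left i2 (by positivity)

/-- third term -/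
theorem term_c {χ : E3 → ℝ} (hχ : Cut χ) {W : E3 → E3} {ρ : Fin 3 → E3 → ℝ}
    (hρ : ∀ i, Integrable (ρ i)) {B : ℝ} (hB : ∀ i, ∫ x, |ρ i x| ≤ B) :
    ∫ x, χ x * ∑ i, gPhi (W x) i * ρ i x ≤ 6 * B := by
  have i1 : Integrable (fun x => ∑ i, 2 * |ρ i x|) :=
    integrable_finsetSum _ fun i _ => (hρ i).abs.const_mul 2
  calc ∫ x, χ x * ∑ i, gPhi (W x) i * ρ i x ≤ |∫ x, χ x * ∑ i, gPhi (W x) i * ρ i x| := le_abs_self _
    _ ≤ ∫ x, |χ x * ∑ i, gPhi (W x) i * ρ i x| := abs_integral_le_integral_abs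
    _ ≤ ∫ x, ∑ i, 2 * |ρ i x| := by
        refine integral_mono_of_nonneg (Eventually.of_forall fun x => abs_nonneg _) i1
          (Eventually.of_forall fun x => ?_)
        change |χ x * ∑ i, gPhi (W x) i * ρ i x| ≤ ∑ i, 2 * |ρ i x|
        rw [abs_mul, abs_of_nonneg (hχ.nonneg x)]
        have h1 : |∑ i, gPhi (W x) i * ρ i x| ≤ ∑ i, 2 * |ρ i x| := by
          refine (Finset.abs_sum_le_sum_abs _ _).trans (Finset.sum_le_sum fun i _ => ?_)
          rw [abs_mul]
          exact mul_le_mul_of_nonneg_right (gPhi_le _ _) (abs_nonneg _)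
        calc χ x * |∑ i, gPhi (W x) i * ρ i x| ≤ 1 * ∑ i, 2 * |ρ i x| :=
              mul_le_mul (hχ.le_one x) h1 (abs_nonneg _) zero_le_one
          _ = _ := one_mul _
    _ = ∑ i, 2 * ∫ x, |ρ i x| := by
        rw [integral_finsetSum _ fun i _ => (hρ i).abs.const_mul 2]
        exact Finset.sum_congr rfl fun i _ => integral_const_mul _ _
    _ ≤ ∑ i : Fin 3, 2 * B := Finset.sum_le_sum fun i _ => mul_le_mul_of_nonneg_left (hB i) (by norm_num)
    _ = 6 * B := by
        rw [Finset.sum_const, Finset.card_univ, Fintype.card_fin, nsmul_eq_mul]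
        push_cast
        ring

/-- the main estimate in space -/
theorem spatial (e0 : StmE0) (w0 : StmW) (n0 : StmN) (p0 : StmP) (hν : 0 < ν) (hR : 0 < R)
    (hM : 0 ≤ M) : ∃ K : ℝ, 0 ≤ K ∧ ∀ (δ : ℝ) (x₀ : E3) (v : E3 → E3) (z : E3 → M3), 0 < δ → HS v z →
      ∫ x, ‖v x‖ ^ 2 ≤ M ^ 2 →
      (∫ x, chi hR x₀ x * ∑ i, gPhi (wu δ v x) i * NN ν δ v z i x) +
        ν * (∫ x, chi hR x₀ x * (gs (wd δ z) x / (1 + ‖wd δ z x‖ ^ 2))) ≤
        K * (1 + ∫ x, ‖z x‖ ^ 2) := by
  obtain ⟨C, hC, hN⟩ := n0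
  obtain ⟨A, hA, hb⟩ := chi_bound hR
  have hV := Vl_nonneg (2 * R)
  refine ⟨ν * (A * (3 * Vl (2 * R) + 4)) + 3 * A * (2 * Vl (2 * R) + 8 + M ^ 2) + 6 * C, by positivity,
    fun δ x₀ v z hδ h hvM => ?_⟩
  obtain ⟨w1, w2, w3, w4, w5⟩ := w0.2 v z h δ hδ
  obtain ⟨ρ, hρ1, hρ2, hρ3⟩ := hN ν δ v z hδ h
  have hZ0 : 0 ≤ ∫ x, ‖z x‖ ^ 2 := integral_nonneg fun x => sq_nonneg _
  have hχ := cut_chi hR x₀
  have hcs := cs_chi hR x₀
  have cW : Continuous (wd δ z) := by
    have : Continuous fun x => WithLp.toLp 2 (fun i => wd δ z x i) := by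
      refine (PiLp.continuous_toLp 2 _).comp ?_
      exact continuous_pi fun i => (w2 i).continuous
    exact this
  have cg : ∀ i, Continuous fun x => gPhi (wd δ z x) i := fun i => (gPhi_cont i).comp cW
  have cfd : ∀ i j, Continuous fun x => fderiv ℝ (fun y => wd δ z y i) x (ev j) := fun i j =>
    ((w2 i).continuous_fderiv (by simp)).clm_apply continuous_const
  have clap : ∀ i, Continuous fun x => lapl (fun y => wd δ z y i) x := by
    intro i
    unfold lapl
    refine continuous_finsetSum _ fun j _ => ?_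
    have h1 : ContDiff ℝ ∞ fun y => fderiv ℝ (fun y => wd δ z y i) y (ev j) :=
      ((w2 i).fderiv_right (m := ∞) (by simp)).clm_apply contDiff_const
    exact (h1.continuous_fderiv (by simp)).clm_apply continuous_const
  -- integrability
  have csup : ∀ {f : E3 → ℝ}, Continuous f → Integrable fun x => chi hR x₀ x * f x := fun {f} hf =>
    (hcs.1.continuous.mul hf).integrable_of_hasCompactSupport hcs.2.mul_right
  have cmem : ∀ {f : E3 → ℝ}, Continuous f → MemLp (fun x => chi hR x₀ x * f x) 2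
      (volume : Measure E3) := fun {f} hf =>
    (hcs.1.continuous.mul hf).memLp_of_hasCompactSupport hcs.2.mul_right
  have I1 : Integrable fun x => chi hR x₀ x * ∑ i, gPhi (wd δ z x) i * lapl (fun y => wd δ z y i) x :=
    csup (continuous_finsetSum _ fun i _ => (cg i).mul (clap i))
  have I2 : Integrable fun x => chi hR x₀ x * ∑ i, gPhi (wd δ z x) i *
      ∑ j, v x j * fderiv ℝ (fun y => wd δ z y i) x (ev j) := by
    have e : (fun x => chi hR x₀ x * ∑ i, gPhi (wd δ z x) i *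
        ∑ j, v x j * fderiv ℝ (fun y => wd δ z y i) x (ev j)) =
        fun x => ∑ i, ∑ j, v x j * (chi hR x₀ x * (gPhi (wd δ z x) i *
          fderiv ℝ (fun y => wd δ z y i) x (ev j))) := by
      funext x
      rw [Finset.mul_sum]
      refine Finset.sum_congr rfl fun i _ => ?_
      rw [Finset.mul_sum, Finset.mul_sum]
      exact Finset.sum_congr rfl fun j _ => by ring
    rw [e]
    exact integrable_finsetSum _ fun i _ => integrable_finsetSum _ fun j _ =>
      (comp_memLp h.mv j).integrable_mul (cmem ((cg i).mul (cfd i j)))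
  have I3 : Integrable fun x => chi hR x₀ x * ∑ i, gPhi (wd δ z x) i * ρ i x := by
    have e : (fun x => chi hR x₀ x * ∑ i, gPhi (wd δ z x) i * ρ i x) =
        fun x => ∑ i, ρ i x * (chi hR x₀ x * gPhi (wd δ z x) i) := by
      funext x
      rw [Finset.mul_sum]
      exact Finset.sum_congr rfl fun i _ => by ring
    rw [e]
    refine integrable_finsetSum _ fun i _ => (hρ1 i).mul_of_top_left ?_
    exact (hcs.1.continuous.mul (cg i)).memLp_of_hasCompactSupport hcs.2.mul_right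
  -- the splitting
  have hsplit : ∫ x, chi hR x₀ x * ∑ i, gPhi (wu δ v x) i * NN ν δ v z i x =
      ν * (∫ x, chi hR x₀ x * ∑ i, gPhi (wd δ z x) i * lapl (fun y => wd δ z y i) x) -
      (∫ x, chi hR x₀ x * ∑ i, gPhi (wd δ z x) i *
        ∑ j, v x j * fderiv ℝ (fun y => wd δ z y i) x (ev j)) +
      ∫ x, chi hR x₀ x * ∑ i, gPhi (wd δ z x) i * ρ i x := by
    have e : ∀ x, chi hR x₀ x * ∑ i, gPhi (wu δ v x) i * NN ν δ v z i x =
        ν * (chi hR x₀ x * ∑ i, gPhi (wd δ z x) i * lapl (fun y => wd δ z y i) x) -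
        (chi hR x₀ x * ∑ i, gPhi (wd δ z x) i *
          ∑ j, v x j * fderiv ℝ (fun y => wd δ z y i) x (ev j)) +
        chi hR x₀ x * ∑ i, gPhi (wd δ z x) i * ρ i x := by
      intro x
      rw [w1 x]
      simp only [hρ3, mul_add, mul_sub, Finset.sum_add_distrib, Finset.sum_sub_distrib]
      congr 2
      rw [Finset.mul_sum, Finset.mul_sum, Finset.mul_sum]
      exact Finset.sum_congr rfl fun i _ => by ring
    simp_rw [e]
    have k1 : Integrable fun x => ν * (chi hR x₀ x * ∑ i, gPhi (wd δ z x) i *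
      lapl (fun y => wd δ z y i) x) := I1.const_mul ν
    have k2 : Integrable fun x => ν * (chi hR x₀ x * ∑ i, gPhi (wd δ z x) i *
      lapl (fun y => wd δ z y i) x) - chi hR x₀ x * ∑ i, gPhi (wd δ z x) i *
        ∑ j, v x j * fderiv ℝ (fun y => wd δ z y i) x (ev j) := k1.sub I2
    rw [integral_add k2 I3, integral_sub k1 I2, integral_const_mul]
  obtain ⟨P1, P2⟩ := p0 (wd δ z) (chi hR x₀) w2 hχ
  have P2' := P2 v z h
  have Ta := term_a hR hA hb w4 x₀
  have Tb := term_b hR hA hb w4 h.mv x₀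
  have Tc := term_c (W := wd δ z) hχ hρ1 hρ2
  rw [hsplit, P2']
  have Tb' := (abs_le.1 Tb).2
  have q1 : ν * (∫ x, chi hR x₀ x * ∑ i, gPhi (wd δ z x) i * lapl (fun y => wd δ z y i) x) +
      ν * (∫ x, chi hR x₀ x * (gs (wd δ z) x / (1 + ‖wd δ z x‖ ^ 2))) ≤
      ν * (A * (3 * Vl (2 * R) + ∫ x, ‖wd δ z x‖ ^ 2)) := by
    rw [← mul_add]
    exact mul_le_mul_of_nonneg_left (P1.trans Ta) hν.le
  set Z : ℝ := ∫ x, ‖z x‖ ^ 2 with hZ
  set U : ℝ := ∫ x, ‖v x‖ ^ 2 with hU
  set X : ℝ := ∫ x, ‖wd δ z x‖ ^ 2 with hX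
  have q2 : ν * (A * (3 * Vl (2 * R) + X)) ≤ ν * (A * (3 * Vl (2 * R) + 4)) * (1 + Z) := by
    rw [mul_assoc, mul_assoc]
    refine mul_le_mul_of_nonneg_left (mul_le_mul_of_nonneg_left ?_ hA) hν.le
    nlinarith
  have q3 : 3 * A * (2 * Vl (2 * R) + (2 * X + U)) ≤
      3 * A * (2 * Vl (2 * R) + 8 + M ^ 2) * (1 + Z) := by
    rw [mul_assoc (3 * A)]
    refine mul_le_mul_of_nonneg_left ?_ (by positivity)
    nlinarith [mul_nonneg (sq_nonneg M) hZ0]
  have q4 : 6 * (C * Z) ≤ 6 * C * (1 + Z) := by nlinarith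
  linarith

end

end Pool.Agent.Q211.HV
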