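import Pool.Agent.Q211.HV.B2

/-!
Project HV (helper67): job HV-B, the uniform bounds.
-/

set_option autoImplicit false

open MeasureTheory Set Metric Filter Topology
open scoped InnerProductSpace ENNReal ContDiff NNReal
open H772R2.NS Pool.Agent.Q67.HV

namespace Pool.Agent.Q211.HV

theorem gs_nonneg (W : E3 → E3) (x : E3) : 0 ≤ gs W x :=
  Finset.sum_nonneg fun _ _ => Finset.sum_nonneg fun _ _ => sq_nonneg _

theorem q_nonneg (W : E3 → E3) (x : E3) : 0 ≤ gs W x / (1 + ‖W x‖ ^ 2) :=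
  div_nonneg (gs_nonneg W x) (by positivity)

theorem cont_of {W : E3 → E3} (h : ∀ i, Continuous fun x => W x i) : Continuous W := by
  have : Continuous fun x => WithLp.toLp 2 (fun i => W x i) :=
    (PiLp.continuous_toLp 2 _).comp (continuous_pi h)
  exact this

theorem q_cont {W : E3 → E3} (w2 : ∀ i, ContDiff ℝ ∞ (fun x => W x i)) :
    Continuous fun x => gs W x / (1 + ‖W x‖ ^ 2) := by
  have cW : Continuous W := cont_of fun i => (w2 i).continuous
  refine Continuous.div ?_ (continuous_const.add (cW.norm.pow 2)) fun x => ?_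
  · unfold gs
    refine continuous_finsetSum _ fun i _ => continuous_finsetSum _ fun j _ => ?_
    exact (((w2 i).continuous_fderiv (by simp)).clm_apply continuous_const).pow 2
  · have := one_le_s (W x)
    positivity

theorem wu_cont (e0 : StmE0) {δ : ℝ} (hδ : 0 < δ) {v : E3 → E3}
    (hv : MemLp v 2 (volume : Measure E3)) : Continuous (wu δ v) := by
  refine cont_of fun i => ?_
  rw [wu_fun e0 hδ hv i]
  refine continuous_finsetSum _ fun k _ => ?_
  exact continuous_iff_continuousAt.2 fun x =>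
    (cv_diff (cs_hk e0 hδ i k) (comp_memLp hv k) x).1.continuousAt

theorem normV (f : L2V univ) : ∫ x, ‖f x‖ ^ 2 = ‖f‖ ^ 2 := by
  have h : ∫ x, ‖f x‖ ^ 2 ∂(volume.restrict (univ : Set E3)) = ‖f‖ ^ 2 := by
    rw [← real_inner_self_eq_norm_sq, L2.inner_def]
    exact integral_congr_ae (Eventually.of_forall fun x => (real_inner_self_eq_norm_sq _).symm)
  rwa [setIntegral_univ] at h

theorem normM (f : L2M univ) : ∫ x, ‖f x‖ ^ 2 = ‖f‖ ^ 2 := by
  have h : ∫ x, ‖f x‖ ^ 2 ∂(volume.restrict (univ : Set E3)) = ‖f‖ ^ 2 := by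
    rw [← real_inner_self_eq_norm_sq, L2.inner_def]
    exact integral_congr_ae (Eventually.of_forall fun x => (real_inner_self_eq_norm_sq _).symm)
  rwa [setIntegral_univ] at h

theorem memV_aux {g : E3 → E3} (h : MemLp g 2 (volume.restrict (univ : Set E3))) :
    MemLp g 2 (volume : Measure E3) := by
  rwa [Measure.restrict_univ] at h

theorem memV (f : L2V univ) : MemLp f 2 (volume : Measure E3) := memV_aux (Lp.memLp f)

/-- HV-B -/
theorem stmB (h0 : StmH0) (e0 : StmE0) (w0 : StmW) (n0 : StmN) (p0 : StmP) (t0 : StmT) : StmB := by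
  intro ν T R u G hν hT hR hsol s z hs hsT huz
  obtain ⟨M, hM⟩ := hsol.bdd
  have hM0 : 0 ≤ M := (norm_nonneg _).trans (hM 0 ⟨le_rfl, hT.le⟩)
  obtain ⟨K, hK, hsp⟩ := spatial e0 w0 n0 p0 hν hR hM0
  have hGi : IntegrableOn (fun τ => K * (1 + ‖G τ‖ ^ 2)) (Ioo 0 T) := by
    have h1 : Integrable (fun τ => ‖G τ‖ ^ 2) (volume.restrict (Ioo 0 T)) :=
      hsol.gradL2.integrable_norm_pow (by norm_num)
    exact ((integrable_const 1).add h1).const_mul K
  have hG0 : ∀ τ, 0 ≤ K * (1 + ‖G τ‖ ^ 2) := fun τ => by positivity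
  set I : ℝ := ∫ τ in Ioo 0 T, K * (1 + ‖G τ‖ ^ 2) with hI
  have hI0 : 0 ≤ I := integral_nonneg hG0
  set F0 : ℝ := 3 * Vl (2 * R) + 4 * ∫ x, ‖z x‖ ^ 2 with hF0
  have hV := Vl_nonneg (2 * R)
  have hZ0 : 0 ≤ ∫ x, ‖z x‖ ^ 2 := integral_nonneg fun x => sq_nonneg _
  have hF00 : 0 ≤ F0 := by positivity
  have hHS : ∀ᵐ t ∂(volume.restrict (Ioo 0 T)), HS (u t) (G t) := by
    filter_upwards [hsol.grad] with t ht
    exact h0 (u t, G t) (mem_graphW.2 ht)
  refine ⟨(F0 + I) + (F0 + I) / ν, fun δ x₀ hδ _ => ?_⟩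
  obtain ⟨hJ, hF⟩ := t0 ν T u G hν.le hT hsol δ (chi hR x₀) hδ (cut_chi hR x₀)
  set J : ℝ → ℝ := fun τ => ∫ x, chi hR x₀ x * ∑ i, gPhi (wu δ (u τ) x) i * NN ν δ (u τ) (G τ) i x
    with hJdef
  set F : ℝ → ℝ := fun t => ∫ x, chi hR x₀ x * Phi (wu δ (u t) x) with hFdef
  have hcs := cs_chi hR x₀
  have hχ := cut_chi hR x₀
  -- pointwise in time
  have hpt : ∀ᵐ τ ∂(volume.restrict (Ioo 0 T)), HS (u τ) (G τ) ∧
      J τ + ν * (∫ x, chi hR x₀ x * (gs (wd δ (G τ)) x / (1 + ‖wd δ (G τ) x‖ ^ 2))) ≤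
        K * (1 + ‖G τ‖ ^ 2) := by
    filter_upwards [hHS, ae_restrict_mem measurableSet_Ioo] with τ h1 h2
    refine ⟨h1, ?_⟩
    have h3 := hsp δ x₀ (u τ) (G τ) hδ h1 (by
      rw [normV]
      exact pow_le_pow_left₀ (norm_nonneg _) (hM τ ⟨h2.1.le, h2.2.le⟩) 2)
    rw [normM] at h3
    exact h3
  have hgn : ∀ τ, 0 ≤ ∫ x, chi hR x₀ x * (gs (wd δ (G τ)) x / (1 + ‖wd δ (G τ) x‖ ^ 2)) := fun τ =>
    integral_nonneg fun x => mul_nonneg (hχ.nonneg x) (q_nonneg _ _)
  have hJle : ∀ᵐ τ ∂(volume.restrict (Ioo 0 T)), J τ ≤ K * (1 + ‖G τ‖ ^ 2) := by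
    filter_upwards [hpt] with τ h1
    have := mul_nonneg hν.le (hgn τ)
    linarith [h1.2]
  have hFn : ∀ t, 0 ≤ F t := fun t => integral_nonneg fun x => mul_nonneg (hχ.nonneg x) (Phi_nonneg _)
  have hint : ∀ a b, a ≤ b → ∫ τ in a..b, J τ = ∫ τ in Ioo a b, J τ := fun a b hab => by
    rw [intervalIntegral.integral_of_le hab, integral_Ioc_eq_integral_Ioo]
  -- the value at time s
  have hFs : F s ≤ F0 := by
    have hHSs : HS (u s) z := h0 (u s, z) huz
    obtain ⟨w1, w2, w3, w4, w5⟩ := w0.2 (u s) z hHSs δ hδ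
    obtain ⟨i1, i2⟩ := int_ball (sq_int w4) (fun x => sq_nonneg _) 3 x₀ (2 * R)
    have h1 : F s ≤ ∫ x, (closedBall x₀ (2 * R)).indicator (fun x => 3 + ‖wd δ z x‖ ^ 2) x := by
      refine integral_mono_of_nonneg (Eventually.of_forall fun x =>
        mul_nonneg (hχ.nonneg x) (Phi_nonneg _)) i1 (Eventually.of_forall fun x => ?_)
      change chi hR x₀ x * Phi (wu δ (u s) x) ≤ _
      rw [w1 x]
      by_cases hx : x ∈ closedBall x₀ (2 * R)
      · rw [indicator_of_mem hx]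
        calc chi hR x₀ x * Phi (wd δ z x) ≤ 1 * (3 + ‖wd δ z x‖ ^ 2) :=
              mul_le_mul (hχ.le_one x) (Phi_le2 _) (Phi_nonneg _) zero_le_one
          _ = _ := one_mul _
      · rw [indicator_of_notMem hx, chi_zero hR x₀ x hx, zero_mul]
    calc F s ≤ 3 * Vl (2 * R) + ∫ x, ‖wd δ z x‖ ^ 2 := h1.trans i2
      _ ≤ _ := by linarith
  refine ⟨fun t ht => ?_, ?_⟩
  · -- first claim
    have h1 : ∫ x in ball x₀ R, ‖wu δ (u t) x‖ ≤ F t := by
      rw [← integral_indicator measurableSet_ball]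
      have cont := wu_cont e0 hδ (memV (u t))
      refine integral_mono_of_nonneg (Eventually.of_forall fun x =>
        indicator_nonneg (fun _ _ => norm_nonneg _) _) ?_ (Eventually.of_forall fun x => ?_)
      · exact (hcs.1.continuous.mul (Phi_cont.comp cont)).integrable_of_hasCompactSupport
          hcs.2.mul_right
      · change (ball x₀ R).indicator _ x ≤ chi hR x₀ x * Phi (wu δ (u t) x)
        by_cases hx : x ∈ ball x₀ R
        · rw [indicator_of_mem hx, chi_one hR x₀ x hx, one_mul]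
          exact Phi_ge _
        · rw [indicator_of_notMem hx]
          exact mul_nonneg (hχ.nonneg x) (Phi_nonneg _)
    have h2 := hF s t hs ht.1 ht.2
    rw [hint s t ht.1] at h2
    have hsub : Ioo s t ⊆ Ioo 0 T := Ioo_subset_Ioo hs ht.2
    have h3 : ∫ τ in Ioo s t, J τ ≤ ∫ τ in Ioo s t, K * (1 + ‖G τ‖ ^ 2) :=
      setIntegral_mono_ae_restrict (hJ.mono_set hsub) (hGi.mono_set hsub)
        (ae_restrict_of_ae_restrict_of_subset hsub hJle)
    have h4 : ∫ τ in Ioo s t, K * (1 + ‖G τ‖ ^ 2) ≤ I :=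
      setIntegral_mono_set hGi (Eventually.of_forall hG0) hsub.eventuallyLE
    have h5 : F t - F s ≤ I := h2.trans (h3.trans h4)
    have h6 : 0 ≤ (F0 + I) / ν := by positivity
    linarith
  · -- second claim
    have hsub : Ioo s T ⊆ Ioo 0 T := Ioo_subset_Ioo hs le_rfl
    have hpt' := ae_restrict_of_ae_restrict_of_subset (μ := (volume : Measure ℝ)) hsub hpt
    have h1 : ∀ᵐ τ ∂(volume.restrict (Ioo s T)), (∫⁻ x in ball x₀ R,
        ENNReal.ofReal (gs (wd δ (G τ)) x / (1 + ‖wd δ (G τ) x‖ ^ 2))) ≤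
        ENNReal.ofReal ((K * (1 + ‖G τ‖ ^ 2) - J τ) / ν) := by
      filter_upwards [hpt'] with τ hτ
      obtain ⟨w1, w2, w3, w4, w5⟩ := w0.2 (u τ) (G τ) hτ.1 δ hδ
      have e1 : ∫⁻ x in ball x₀ R, ENNReal.ofReal (gs (wd δ (G τ)) x / (1 + ‖wd δ (G τ) x‖ ^ 2)) =
          ∫⁻ x in ball x₀ R, ENNReal.ofReal (chi hR x₀ x *
            (gs (wd δ (G τ)) x / (1 + ‖wd δ (G τ) x‖ ^ 2))) := by
        refine setLIntegral_congr_fun measurableSet_ball fun x hx => ?_
        change _ = ENNReal.ofReal (chi hR x₀ x * (gs (wd δ (G τ)) x / (1 + ‖wd δ (G τ) x‖ ^ 2)))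
        rw [chi_one hR x₀ x hx, one_mul]
      rw [e1]
      refine (setLIntegral_le_lintegral _ _).trans ?_
      have qi : Integrable fun x => chi hR x₀ x *
          (gs (wd δ (G τ)) x / (1 + ‖wd δ (G τ) x‖ ^ 2)) :=
        (hcs.1.continuous.mul (q_cont w2)).integrable_of_hasCompactSupport hcs.2.mul_right
      rw [← ofReal_integral_eq_lintegral_ofReal qi
        (Eventually.of_forall fun x => mul_nonneg (hχ.nonneg x) (q_nonneg _ _))]
      refine ENNReal.ofReal_le_ofReal ?_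
      rw [le_div_iff₀ hν]
      have := hτ.2
      linarith
    have hd : IntegrableOn (fun τ => (K * (1 + ‖G τ‖ ^ 2) - J τ) / ν) (Ioo s T) :=
      ((hGi.mono_set hsub).sub (hJ.mono_set hsub)).div_const ν
    have hdn : 0 ≤ᵐ[volume.restrict (Ioo s T)] fun τ => (K * (1 + ‖G τ‖ ^ 2) - J τ) / ν := by
      filter_upwards [ae_restrict_of_ae_restrict_of_subset (μ := (volume : Measure ℝ)) hsub hJle]
        with τ hτ
      exact div_nonneg (sub_nonneg.2 hτ) hν.le
    refine (lintegral_mono_ae h1).trans ?_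
    rw [← ofReal_integral_eq_lintegral_ofReal hd hdn]
    refine ENNReal.ofReal_le_ofReal ?_
    rw [integral_div, integral_sub (hGi.mono_set hsub) (hJ.mono_set hsub)]
    have h2 := hF s T hs hsT.le le_rfl
    rw [hint s T hsT.le] at h2
    have h4 : ∫ τ in Ioo s T, K * (1 + ‖G τ‖ ^ 2) ≤ I :=
      setIntegral_mono_set hGi (Eventually.of_forall hG0) hsub.eventuallyLE
    have h5 : (∫ τ in Ioo s T, K * (1 + ‖G τ‖ ^ 2)) - ∫ τ in Ioo s T, J τ ≤ F0 + I := by
      have := hFn T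
      have h2' : F T - F s ≤ ∫ τ in Ioo s T, J τ := h2
      linarith
    have h6 := div_le_div_of_nonneg_right h5 hν.le
    have h7 : 0 ≤ F0 + I := by positivity
    linarith

end Pool.Agent.Q211.HV
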