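import Pool.Agent.Q67.HV.Defs

/-!
Project HV (helper67): convolutions with smooth functions with compact support.
-/

set_option autoImplicit false

open MeasureTheory Set Metric Filter Topology
open scoped InnerProductSpace ENNReal ContDiff NNReal
open H772R2.NS Pool.Agent.Q67.HV

namespace Pool.Agent.Q211.HV

/-- directional derivative -/
noncomputable def pd (j : Fin 3) (g : E3 → ℝ) (x : E3) : ℝ := fderiv ℝ g x (ev j)

/-- convolution -/
noncomputable def cv (g f : E3 → ℝ) (x : E3) : ℝ := ∫ y, g (x - y) * f y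

/-- smooth with compact support -/
def CS (g : E3 → ℝ) : Prop := ContDiff ℝ ∞ g ∧ HasCompactSupport g

theorem CS.pd {g : E3 → ℝ} (hg : CS g) (j : Fin 3) : CS (pd j g) := by
  refine ⟨?_, ?_⟩
  · have h := (hg.1.fderiv_right (m := ∞) (by simp)).clm_apply (contDiff_const (c := ev j))
    exact h
  · exact hg.2.fderiv_apply ℝ (ev j)

theorem CS.smul {g : E3 → ℝ} (c : ℝ) (hg : CS g) : CS (fun x => c * g x) :=
  ⟨contDiff_const.mul hg.1, hg.2.mul_left⟩

theorem CS.add {g h : E3 → ℝ} (hg : CS g) (hh : CS h) : CS (fun x => g x + h x) :=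
  ⟨hg.1.add hh.1, hg.2.add hh.2⟩

theorem CS.zero : CS (fun _ => 0) := ⟨contDiff_const, HasCompactSupport.zero⟩

theorem CS.sum {ι : Type} (s : Finset ι) {g : ι → E3 → ℝ} (hg : ∀ i ∈ s, CS (g i)) :
    CS (fun x => ∑ i ∈ s, g i x) := by
  classical
  induction s using Finset.induction_on with
  | empty => simp only [Finset.sum_empty]; exact CS.zero
  | insert a s ha ih =>
    simp only [Finset.sum_insert ha]
    exact (hg a (Finset.mem_insert_self _ _)).add (ih fun i hi => hg i (Finset.mem_insert_of_mem hi))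

theorem CS.refl {g : E3 → ℝ} (hg : CS g) (x : E3) : CS (fun y => g (x - y)) := by
  refine ⟨hg.1.comp (contDiff_const.sub contDiff_id), ?_⟩
  exact hg.2.comp_homeomorph (Homeomorph.subLeft x)

theorem CS.diff {g : E3 → ℝ} (hg : CS g) : Differentiable ℝ g := hg.1.differentiable (by simp)

theorem CS.memLp {g : E3 → ℝ} (hg : CS g) (p : ℝ≥0∞) : MemLp g p (volume : Measure E3) :=
  hg.1.continuous.memLp_of_hasCompactSupport hg.2

theorem CS.int {g : E3 → ℝ} (hg : CS g) : Integrable g := hg.1.continuous.integrable_of_hasCompactSupport hg.2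

/-- derivative of `y ↦ g (x - y)` -/
theorem pd_refl {g : E3 → ℝ} (hg : Differentiable ℝ g) (x y : E3) (j : Fin 3) :
    fderiv ℝ (fun y' => g (x - y')) y (ev j) = -pd j g (x - y) := by
  have h1 : HasFDerivAt (fun y' : E3 => x - y') (-ContinuousLinearMap.id ℝ E3) y := by
    have := (hasFDerivAt_id (𝕜 := ℝ) y).const_sub x
    exact this
  have h2 : HasFDerivAt (fun y' => g (x - y'))
      ((fderiv ℝ g (x - y)).comp (-ContinuousLinearMap.id ℝ E3)) y :=
    HasFDerivAt.comp y (hg (x - y)).hasFDerivAt h1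
  rw [h2.fderiv]
  unfold pd
  simp

theorem cv_int {g f : E3 → ℝ} (hg : CS g) (hf : MemLp f 2 (volume : Measure E3)) (x : E3) :
    Integrable (fun y => g (x - y) * f y) := ((hg.refl x).memLp 2).integrable_mul hf


theorem cv_eq (g f : E3 → ℝ) : cv g f = convolution f g (ContinuousLinearMap.mul ℝ ℝ) volume := by
  funext x
  unfold cv convolution
  refine integral_congr_ae (Eventually.of_forall fun y => ?_)
  change g (x - y) * f y = f y * g (x - y)
  ring

theorem cv_diff {g f : E3 → ℝ} (hg : CS g) (hf : MemLp f 2 (volume : Measure E3)) (x : E3) :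
    DifferentiableAt ℝ (cv g f) x ∧ ∀ j, fderiv ℝ (cv g f) x (ev j) = cv (pd j g) f x := by
  have hl : LocallyIntegrable f (volume : Measure E3) := hf.locallyIntegrable (by norm_num)
  have h1 := hg.2.hasFDerivAt_convolution_right (ContinuousLinearMap.mul ℝ ℝ) hl
    (hg.1.of_le (by simp)) x
  rw [← cv_eq] at h1
  refine ⟨h1.differentiableAt, fun j => ?_⟩
  rw [h1.fderiv, convolution_precompR_apply _ hl (hg.2.fderiv ℝ) (hg.1.continuous_fderiv (by simp)),
    cv_eq]
  rfl

/-- the integral of a derivative -/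
theorem int_pd {g : E3 → ℝ} (hg : CS g) (j : Fin 3) : ∫ y, pd j g y = 0 := by
  have h := integral_mul_fderiv_eq_neg_fderiv_mul_of_integrable (μ := (volume : Measure E3))
    (f := fun _ : E3 => (1 : ℝ)) (g := g) (v := ev j) (by simp)
    (by simp only [one_mul]; exact (hg.pd j).int) (by simpa using hg.int)
    (fun x _ => differentiableAt_const _) (fun x _ => hg.diff x)
  simp only [one_mul, fderiv_fun_const, Pi.zero_apply, ContinuousLinearMap.zero_apply, zero_mul,
    integral_zero, neg_zero] at h
  exact h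

theorem int_pd_refl {g : E3 → ℝ} (hg : CS g) (x : E3) (j : Fin 3) : ∫ y, pd j g (x - y) = 0 := by
  rw [integral_sub_left_eq_self (fun y => pd j g y) volume x, int_pd hg]

end Pool.Agent.Q211.HV
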