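import Pool.Agent.Q211.HV.Conv

/-!
Project HV (helper67): job HV-N, the double commutator.
-/

set_option autoImplicit false

open MeasureTheory Set Metric Filter Topology
open scoped InnerProductSpace ENNReal ContDiff NNReal
open H772R2.NS Pool.Agent.Q67.HV

namespace Pool.Agent.Q211.HV

/-- the kernels -/
noncomputable def hk (δ : ℝ) (i k : Fin 3) (x : E3) : ℝ := ∑ l, (-eps k l i) * pd l (eta δ) x

theorem cs_eta (e0 : StmE0) {δ : ℝ} (hδ : 0 < δ) : CS (eta δ) := by
  obtain ⟨h1, -, h3, -, -⟩ := e0.1 δ hδ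
  refine ⟨h1, HasCompactSupport.intro (isCompact_closedBall (0 : E3) δ) fun x hx => h3 x ?_⟩
  rw [mem_closedBall, dist_zero_right, not_le] at hx
  exact hx.le

theorem cs_hk (e0 : StmE0) {δ : ℝ} (hδ : 0 < δ) (i k : Fin 3) : CS (hk δ i k) := by
  unfold hk
  exact CS.sum _ fun l _ => ((cs_eta e0 hδ).pd l).smul _

theorem tf_apply (e0 : StmE0) {δ : ℝ} (hδ : 0 < δ) (i k : Fin 3) (x y : E3) :
    tf δ i x y k = hk δ i k (x - y) := by
  change ∑ l, eps k l i * fderiv ℝ (fun y' => eta δ (x - y')) y (ev l) = _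
  unfold hk
  refine Finset.sum_congr rfl fun l _ => ?_
  rw [pd_refl (cs_eta e0 hδ).diff]
  ring

theorem comp_fderiv {φ : E3 → E3} {y : E3} (h : DifferentiableAt ℝ φ y) (v : E3) (k : Fin 3) :
    (fderiv ℝ φ y v) k = fderiv ℝ (fun y => φ y k) y v := by
  have h1 : HasFDerivAt (fun y => φ y k)
      ((EuclideanSpace.proj k : E3 →L[ℝ] ℝ).comp (fderiv ℝ φ y)) y :=
    (EuclideanSpace.proj k : E3 →L[ℝ] ℝ).hasFDerivAt.comp y h.hasFDerivAt
  rw [h1.fderiv]
  rfl

theorem jac_tf (e0 : StmE0) (w0 : StmW) {δ : ℝ} (hδ : 0 < δ) (i k j : Fin 3) (x y : E3) :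
    jac (tf δ i x) y (k, j) = -pd j (hk δ i k) (x - y) := by
  rw [jac_apply, comp_fderiv ((w0.1 δ i x hδ).smooth.differentiable (by simp) y)]
  have h : (fun y => tf δ i x y k) = fun y => hk δ i k (x - y) :=
    funext fun y => tf_apply e0 hδ i k x y
  rw [h]
  exact pd_refl (cs_hk e0 hδ i k).diff x y j

theorem comp_memLp {v : E3 → E3} (hv : MemLp v 2 (volume : Measure E3)) (k : Fin 3) :
    MemLp (fun y => v y k) 2 (volume : Measure E3) :=
  (EuclideanSpace.proj k : E3 →L[ℝ] ℝ).comp_memLp' hv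

theorem compM_memLp {z : E3 → M3} (hv : MemLp z 2 (volume : Measure E3)) (k : Fin 3 × Fin 3) :
    MemLp (fun y => z y k) 2 (volume : Measure E3) :=
  (EuclideanSpace.proj k : M3 →L[ℝ] ℝ).comp_memLp' hv

theorem wu_apply (e0 : StmE0) {δ : ℝ} (hδ : 0 < δ) {v : E3 → E3}
    (hv : MemLp v 2 (volume : Measure E3)) (i : Fin 3) (x : E3) :
    wu δ v x i = ∑ k, cv (hk δ i k) (fun y => v y k) x := by
  change ∫ y, ∑ k, v y k * tf δ i x y k = _
  unfold cv
  rw [← integral_finsetSum _ fun k _ => cv_int (cs_hk e0 hδ i k) (comp_memLp hv k) x]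
  refine integral_congr_ae (Eventually.of_forall fun y => ?_)
  refine Finset.sum_congr rfl fun k _ => ?_
  rw [tf_apply e0 hδ, mul_comm]

theorem sum_cv_diff {g : Fin 3 → E3 → ℝ} (hg : ∀ k, CS (g k)) {v : E3 → E3}
    (hv : MemLp v 2 (volume : Measure E3)) (j : Fin 3) (x : E3) :
    fderiv ℝ (fun x => ∑ k, cv (g k) (fun y => v y k) x) x (ev j) =
      ∑ k, cv (pd j (g k)) (fun y => v y k) x := by
  have h1 : HasFDerivAt (fun x => ∑ k, cv (g k) (fun y => v y k) x)
      (∑ k, fderiv ℝ (cv (g k) (fun y => v y k)) x) x :=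
    HasFDerivAt.fun_sum fun k _ => (cv_diff (hg k) (comp_memLp hv k) x).1.hasFDerivAt
  rw [h1.fderiv, ContinuousLinearMap.sum_apply]
  exact Finset.sum_congr rfl fun k _ => (cv_diff (hg k) (comp_memLp hv k) x).2 j

theorem wu_fun (e0 : StmE0) {δ : ℝ} (hδ : 0 < δ) {v : E3 → E3}
    (hv : MemLp v 2 (volume : Measure E3)) (i : Fin 3) :
    (fun x => wu δ v x i) = fun x => ∑ k, cv (hk δ i k) (fun y => v y k) x :=
  funext fun x => wu_apply e0 hδ hv i x

theorem wu_fderiv (e0 : StmE0) {δ : ℝ} (hδ : 0 < δ) {v : E3 → E3}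
    (hv : MemLp v 2 (volume : Measure E3)) (i j : Fin 3) (x : E3) :
    fderiv ℝ (fun x => wu δ v x i) x (ev j) = ∑ k, cv (pd j (hk δ i k)) (fun y => v y k) x := by
  rw [wu_fun e0 hδ hv, sum_cv_diff (cs_hk e0 hδ i) hv]

theorem wu_lapl (e0 : StmE0) {δ : ℝ} (hδ : 0 < δ) {v : E3 → E3}
    (hv : MemLp v 2 (volume : Measure E3)) (i : Fin 3) (x : E3) :
    lapl (fun x => wu δ v x i) x =
      ∑ j, ∑ k, cv (pd j (pd j (hk δ i k))) (fun y => v y k) x := by
  unfold lapl
  refine Finset.sum_congr rfl fun j _ => ?_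
  have h : (fun y => fderiv ℝ (fun x => wu δ v x i) y (ev j)) =
      fun x => ∑ k, cv (pd j (hk δ i k)) (fun y => v y k) x :=
    funext fun x => wu_fderiv e0 hδ hv i j x
  rw [h, sum_cv_diff (fun k => (cs_hk e0 hδ i k).pd j) hv]

/-- the double commutator -/
noncomputable def rho (δ : ℝ) (v : E3 → E3) (i : Fin 3) (x : E3) : ℝ :=
  ∫ y, ∑ k, ∑ j, (v y k - v x k) * (v y j - v x j) * (-pd j (hk δ i k) (x - y))

theorem visc {v : E3 → E3} {z : E3 → M3} (h : HS v z) {g : E3 → ℝ} (hg : CS g) (x : E3)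
    (k j : Fin 3) : ∫ y, z y (k, j) * (-g (x - y)) = -cv (pd j g) (fun y => v y k) x := by
  have h1 := h.grad (fun y => g (x - y)) (hg.refl x).1 (hg.refl x).2 k j
  simp_rw [pd_refl hg.diff] at h1
  have h2 : ∫ y, z y (k, j) * (-g (x - y)) = -∫ y, z y (k, j) * g (x - y) := by
    rw [← integral_neg]
    exact integral_congr_ae (Eventually.of_forall fun y => by ring)
  rw [h2, ← h1, cv, ← integral_neg]
  exact integral_congr_ae (Eventually.of_forall fun y => by ring)

theorem divv {v : E3 → E3} {z : E3 → M3} (h : HS v z) {g : E3 → ℝ} (hg : CS g) (x : E3) :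
    ∑ j, ∫ y, v y j * (-pd j g (x - y)) = 0 := by
  have h1 : ∀ j, ∫ y, v y j * (-pd j g (x - y)) = -∫ y, z y (j, j) * g (x - y) := by
    intro j
    have h2 := h.grad (fun y => g (x - y)) (hg.refl x).1 (hg.refl x).2 j j
    simp_rw [pd_refl hg.diff] at h2
    exact h2
  have ii : ∀ j : Fin 3, Integrable (fun y => z y (j, j) * g (x - y)) := fun j =>
    (compM_memLp h.mz (j, j)).integrable_mul ((hg.refl x).memLp 2)
  rw [Finset.sum_congr rfl fun j _ => h1 j, Finset.sum_neg_distrib, neg_eq_zero,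
    ← integral_finsetSum _ fun j _ => ii j]
  have h3 : ∀ᵐ y : E3, ∑ j, z y (j, j) * g (x - y) = 0 := by
    filter_upwards [h.div] with y hy
    rw [← Finset.sum_mul, hy, zero_mul]
  rw [integral_congr_ae h3, integral_zero]

theorem cs_int3 {f f' g : E3 → ℝ} (hf : MemLp f 2 (volume : Measure E3))
    (hf' : MemLp f' 2 (volume : Measure E3)) (hg : CS g) :
    Integrable (fun y => f y * f' y * g y) :=
  (hf.integrable_mul hf').mul_of_top_left (hg.memLp ∞)

theorem NN_eq (e0 : StmE0) (w0 : StmW) (ν δ : ℝ) (v : E3 → E3) (z : E3 → M3) (hδ : 0 < δ)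
    (h : HS v z) (i : Fin 3) (x : E3) :
    NN ν δ v z i x = ν * lapl (fun y => wu δ v y i) x
      - (∑ j, v x j * fderiv ℝ (fun y => wu δ v y i) x (ev j)) + rho δ v i x := by
  have hcs : ∀ k, CS (hk δ i k) := cs_hk e0 hδ i
  have hcs2 : ∀ k j, CS (fun y => -pd j (hk δ i k) (x - y)) := fun k j => by
    have h1 := ((hcs k).pd j).refl x
    have h2 := h1.smul (-1)
    simpa using h2
  have i1 : ∀ k j, Integrable (fun y => v y k * v y j * (-pd j (hk δ i k) (x - y))) := fun k j =>
    cs_int3 (comp_memLp h.mv k) (comp_memLp h.mv j) (hcs2 k j)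
  have i2 : ∀ l k j, Integrable (fun y => v y l * (-pd j (hk δ i k) (x - y))) := fun l k j =>
    (comp_memLp h.mv l).integrable_mul ((hcs2 k j).memLp 2)
  have i3 : ∀ k j, Integrable (fun y => -pd j (hk δ i k) (x - y)) := fun k j => (hcs2 k j).int
  have r1 : ∀ k j, ∫ y, (v y k - v x k) * (v y j - v x j) * (-pd j (hk δ i k) (x - y)) =
      (∫ y, v y k * v y j * (-pd j (hk δ i k) (x - y))) -
        v x j * (∫ y, v y k * (-pd j (hk δ i k) (x - y))) -
        v x k * (∫ y, v y j * (-pd j (hk δ i k) (x - y))) := by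
    intro k j
    have e1 : ∀ y, (v y k - v x k) * (v y j - v x j) * (-pd j (hk δ i k) (x - y)) =
        v y k * v y j * (-pd j (hk δ i k) (x - y)) - v x j * (v y k * (-pd j (hk δ i k) (x - y))) -
        v x k * (v y j * (-pd j (hk δ i k) (x - y))) +
        v x k * v x j * (-pd j (hk δ i k) (x - y)) := fun y => by ring
    simp_rw [e1]
    have j1 : Integrable (fun y => v x j * (v y k * (-pd j (hk δ i k) (x - y)))) :=
      (i2 k k j).const_mul _
    have j2 : Integrable (fun y => v x k * (v y j * (-pd j (hk δ i k) (x - y)))) :=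
      (i2 j k j).const_mul _
    have j3 : Integrable (fun y => v x k * v x j * (-pd j (hk δ i k) (x - y))) :=
      (i3 k j).const_mul _
    have j4 : Integrable (fun y => v y k * v y j * (-pd j (hk δ i k) (x - y)) -
      v x j * (v y k * (-pd j (hk δ i k) (x - y)))) := (i1 k j).sub j1
    have j5 : Integrable (fun y => v y k * v y j * (-pd j (hk δ i k) (x - y)) -
      v x j * (v y k * (-pd j (hk δ i k) (x - y))) -
      v x k * (v y j * (-pd j (hk δ i k) (x - y)))) := j4.sub j2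
    rw [integral_add j5 j3, integral_sub j4 j2, integral_sub (i1 k j) j1, integral_const_mul,
      integral_const_mul, integral_const_mul, integral_neg, int_pd_refl (hcs k)]
    ring
  have i4 : ∀ k j, Integrable (fun y => (v y k - v x k) * (v y j - v x j) *
      (-pd j (hk δ i k) (x - y))) := by
    intro k j
    have e1 : (fun y => (v y k - v x k) * (v y j - v x j) * (-pd j (hk δ i k) (x - y))) =
        fun y => v y k * v y j * (-pd j (hk δ i k) (x - y)) -
        v x j * (v y k * (-pd j (hk δ i k) (x - y))) -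
        v x k * (v y j * (-pd j (hk δ i k) (x - y))) +
        v x k * v x j * (-pd j (hk δ i k) (x - y)) := funext fun y => by ring
    rw [e1]
    exact (((i1 k j).sub ((i2 k k j).const_mul _)).sub ((i2 j k j).const_mul _)).add
      ((i3 k j).const_mul _)
  have r2 : rho δ v i x = ∑ k, ∑ j, ((∫ y, v y k * v y j * (-pd j (hk δ i k) (x - y))) -
        v x j * (∫ y, v y k * (-pd j (hk δ i k) (x - y))) -
        v x k * (∫ y, v y j * (-pd j (hk δ i k) (x - y)))) := by
    unfold rho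
    rw [integral_finsetSum _ fun k _ => integrable_finsetSum _ fun j _ => i4 k j]
    refine Finset.sum_congr rfl fun k _ => ?_
    rw [integral_finsetSum _ fun j _ => i4 k j]
    exact Finset.sum_congr rfl fun j _ => r1 k j
  have r3 : ∑ k, ∑ j, v x k * (∫ y, v y j * (-pd j (hk δ i k) (x - y))) = 0 := by
    refine Finset.sum_eq_zero fun k _ => ?_
    rw [← Finset.mul_sum, divv h (hcs k), mul_zero]
  have r4 : ∑ k, ∑ j, v x j * (∫ y, v y k * (-pd j (hk δ i k) (x - y))) =
      -∑ j, v x j * fderiv ℝ (fun y => wu δ v y i) x (ev j) := by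
    rw [Finset.sum_comm, ← Finset.sum_neg_distrib]
    refine Finset.sum_congr rfl fun j _ => ?_
    rw [wu_fderiv e0 hδ h.mv, ← Finset.mul_sum, ← mul_neg, ← Finset.sum_neg_distrib]
    congr 1
    refine Finset.sum_congr rfl fun k _ => ?_
    rw [cv, ← integral_neg]
    exact integral_congr_ae (Eventually.of_forall fun y => by ring)
  have n1 : ∫ y, ∑ k, ∑ j, v y k * v y j * jac (tf δ i x) y (k, j) =
      ∑ k, ∑ j, ∫ y, v y k * v y j * (-pd j (hk δ i k) (x - y)) := by
    simp_rw [jac_tf e0 w0 hδ]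
    rw [integral_finsetSum _ fun k _ => integrable_finsetSum _ fun j _ => i1 k j]
    exact Finset.sum_congr rfl fun k _ => integral_finsetSum _ fun j _ => i1 k j
  have n2 : ∫ y, ∑ k, ∑ j, z y (k, j) * jac (tf δ i x) y (k, j) =
      -lapl (fun y => wu δ v y i) x := by
    have i5 : ∀ k j, Integrable (fun y => z y (k, j) * (-pd j (hk δ i k) (x - y))) := fun k j =>
      (compM_memLp h.mz (k, j)).integrable_mul ((hcs2 k j).memLp 2)
    simp_rw [jac_tf e0 w0 hδ]
    rw [integral_finsetSum _ fun k _ => integrable_finsetSum _ fun j _ => i5 k j, wu_lapl e0 hδ h.mv,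
      Finset.sum_comm, ← Finset.sum_neg_distrib]
    refine Finset.sum_congr rfl fun k _ => ?_
    rw [integral_finsetSum _ fun j _ => i5 k j, ← Finset.sum_neg_distrib]
    exact Finset.sum_congr rfl fun j _ => visc h ((hcs k).pd j) x k j
  unfold NN
  rw [n1, n2, r2]
  simp only [Finset.sum_sub_distrib]
  rw [r3, r4]
  ring

end Pool.Agent.Q211.HV
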