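import Pool.Agent.Q211.HV.N

/-!
Project HV (helper67): job HV-N, the bound of the double commutator.
-/

set_option autoImplicit false

open MeasureTheory Set Metric Filter Topology
open scoped InnerProductSpace ENNReal ContDiff NNReal
open H772R2.NS Pool.Agent.Q67.HV

namespace Pool.Agent.Q211.HV

theorem pd_zero_of {g : E3 → ℝ} {δ : ℝ} (hg : ∀ x, δ < ‖x‖ → g x = 0) (j : Fin 3) :
    ∀ x, δ < ‖x‖ → pd j g x = 0 := by
  intro x hx
  have h1 : g =ᶠ[𝓝 x] fun _ => (0 : ℝ) := by
    filter_upwards [(isOpen_lt continuous_const continuous_norm).mem_nhds hx] with y hy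
    exact hg y hy
  unfold pd
  rw [h1.fderiv_eq]
  simp

theorem abs_eps_le (k l i : Fin 3) : |eps k l i| ≤ 1 := by
  fin_cases k <;> fin_cases l <;> fin_cases i <;> simp [eps]

theorem pd_hk (e0 : StmE0) {δ : ℝ} (hδ : 0 < δ) (i k j : Fin 3) (x : E3) :
    pd j (hk δ i k) x = ∑ l, (-eps k l i) * pd j (pd l (eta δ)) x := by
  have h1 : HasFDerivAt (hk δ i k) (∑ l, (-eps k l i) • fderiv ℝ (pd l (eta δ)) x) x := by
    unfold hk
    exact HasFDerivAt.fun_sum fun l _ =>
      (((cs_eta e0 hδ).pd l).diff x).hasFDerivAt.const_mul _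
  unfold pd
  rw [h1.fderiv, ContinuousLinearMap.sum_apply]
  rfl

theorem hk_supp (e0 : StmE0) {δ : ℝ} (hδ : 0 < δ) (i k j : Fin 3) :
    ∀ x, δ < ‖x‖ → pd j (hk δ i k) x = 0 := by
  refine pd_zero_of (fun x hx => ?_) j
  unfold hk
  refine Finset.sum_eq_zero fun l _ => ?_
  rw [pd_zero_of (fun y hy => (e0.1 δ hδ).2.2.1 y hy.le) l x hx, mul_zero]

theorem hk_bound (e0 : StmE0) : ∃ C : ℝ, 0 < C ∧ ∀ δ : ℝ, 0 < δ → ∀ i k j x,
    |pd j (hk δ i k) x| ≤ C / δ ^ 5 := by
  obtain ⟨C, hC, h⟩ := e0.2.1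
  refine ⟨3 * C, by positivity, fun δ hδ i k j x => ?_⟩
  rw [pd_hk e0 hδ]
  refine (Finset.abs_sum_le_sum_abs _ _).trans ?_
  have h1 : ∀ l ∈ (Finset.univ : Finset (Fin 3)), |(-eps k l i) * pd j (pd l (eta δ)) x| ≤ C / δ ^ 5 := by
    intro l _
    rw [abs_mul, abs_neg]
    have h2 : |pd j (pd l (eta δ)) x| ≤ C / δ ^ 5 := (h δ hδ x).2.2 l j
    have h3 := abs_eps_le k l i
    calc |eps k l i| * |pd j (pd l (eta δ)) x| ≤ 1 * (C / δ ^ 5) :=
          mul_le_mul h3 h2 (abs_nonneg _) zero_le_one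
      _ = _ := one_mul _
  refine (Finset.sum_le_sum h1).trans (le_of_eq ?_)
  rw [Finset.sum_const, Finset.card_univ, Fintype.card_fin, nsmul_eq_mul]
  push_cast
  ring

/-- the shear -/
theorem shear : MeasurePreserving (fun p : E3 × E3 => (p.1, p.1 + p.2))
    ((volume : Measure E3).prod volume) ((volume : Measure E3).prod volume) :=
  measurePreserving_prod_add volume volume

/-- the square of the difference on the ball -/
noncomputable def QQ (δ : ℝ) (v : E3 → E3) (p : E3 × E3) : ℝ :=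
  (closedBall (0 : E3) δ).indicator (fun _ => ‖v (p.1 + p.2) - v p.1‖ ^ 2) p.2

theorem QQ_nonneg (δ : ℝ) (v : E3 → E3) (p : E3 × E3) : 0 ≤ QQ δ v p :=
  indicator_nonneg (fun _ _ => sq_nonneg _) _

theorem QQ_int {v : E3 → E3} {z : E3 → M3} (h : HS v z) {δ : ℝ} (hδ : 0 < δ) :
    Integrable (QQ δ v) ((volume : Measure E3).prod volume) ∧
      ∫ p, QQ δ v p ∂((volume : Measure E3).prod volume) ≤
        δ ^ 2 * (∫ x, ‖z x‖ ^ 2) * (volume : Measure E3).real (closedBall (0 : E3) δ) := by
  have hz0 : 0 ≤ ∫ x, ‖z x‖ ^ 2 := integral_nonneg fun x => sq_nonneg _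
  have m1 : AEStronglyMeasurable (fun p : E3 × E3 => v (p.1 + p.2))
      ((volume : Measure E3).prod volume) := by
    have := h.mv.1.comp_quasiMeasurePreserving
      (Measure.quasiMeasurePreserving_snd.comp shear.quasiMeasurePreserving)
    exact this
  have m2 : AEStronglyMeasurable (fun p : E3 × E3 => v p.1) ((volume : Measure E3).prod volume) :=
    h.mv.1.comp_fst
  have m3 : AEStronglyMeasurable (QQ δ v) ((volume : Measure E3).prod volume) := by
    have e : QQ δ v = (univ ×ˢ closedBall (0 : E3) δ).indicator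
        (fun p : E3 × E3 => ‖v (p.1 + p.2) - v p.1‖ ^ 2) := by
      funext p
      unfold QQ
      by_cases hp : p.2 ∈ closedBall (0 : E3) δ
      · rw [indicator_of_mem hp, indicator_of_mem (by exact ⟨mem_univ _, hp⟩)]
      · rw [indicator_of_notMem hp, indicator_of_notMem fun h => hp h.2]
    rw [e]
    exact ((m1.sub m2).norm.pow 2).indicator (MeasurableSet.univ.prod measurableSet_closedBall)
  have hdiff : ∀ k : E3, MemLp (fun x => v (x + k) - v x) 2 (volume : Measure E3) := fun k =>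
    (h.mv.comp_measurePreserving (measurePreserving_add_right volume k)).sub h.mv
  have hint : ∀ k : E3, Integrable (fun x => QQ δ v (x, k)) := by
    intro k
    unfold QQ
    by_cases hk : k ∈ closedBall (0 : E3) δ
    · simp only [indicator_of_mem hk]
      exact (hdiff k).integrable_norm_pow (by norm_num)
    · simp only [indicator_of_notMem hk]
      exact integrable_zero _ _ _
  have hval : ∀ k : E3, ∫ x, QQ δ v (x, k) ≤
      (closedBall (0 : E3) δ).indicator (fun _ => δ ^ 2 * ∫ x, ‖z x‖ ^ 2) k := by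
    intro k
    unfold QQ
    by_cases hk : k ∈ closedBall (0 : E3) δ
    · simp only [indicator_of_mem hk]
      refine (h.trans k).trans (mul_le_mul_of_nonneg_right ?_ hz0)
      rw [mem_closedBall, dist_zero_right] at hk
      exact pow_le_pow_left₀ (norm_nonneg _) hk 2
    · simp only [indicator_of_notMem hk]
      rw [integral_zero]
  have hg : Integrable ((closedBall (0 : E3) δ).indicator fun _ : E3 => δ ^ 2 * ∫ x, ‖z x‖ ^ 2) := by
    refine (integrable_indicator_iff measurableSet_closedBall).2 ?_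
    exact integrableOn_const (measure_closedBall_lt_top).ne
  have hI : Integrable (QQ δ v) ((volume : Measure E3).prod volume) := by
    rw [integrable_prod_iff' m3]
    refine ⟨Eventually.of_forall hint, ?_⟩
    refine hg.mono' ?_ (Eventually.of_forall fun k => ?_)
    · exact m3.norm.prod_swap.integral_prod_right'
    · have e : ∫ x, ‖QQ δ v (x, k)‖ = ∫ x, QQ δ v (x, k) :=
        integral_congr_ae (Eventually.of_forall fun x => Real.norm_of_nonneg (QQ_nonneg _ _ _))
      rw [e, Real.norm_of_nonneg (integral_nonneg fun x => QQ_nonneg _ _ _)]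
      exact hval k
  refine ⟨hI, ?_⟩
  rw [integral_prod_symm _ hI]
  calc ∫ k, ∫ x, QQ δ v (x, k) ≤
        ∫ k, (closedBall (0 : E3) δ).indicator (fun _ => δ ^ 2 * ∫ x, ‖z x‖ ^ 2) k :=
        integral_mono_of_nonneg (Eventually.of_forall fun k => integral_nonneg fun x => QQ_nonneg _ _ _)
          hg (Eventually.of_forall hval)
    _ = _ := by
        rw [integral_indicator measurableSet_closedBall, setIntegral_const, smul_eq_mul, mul_comm]

theorem rho_bound (e0 : StmE0) : ∃ C : ℝ, 0 < C ∧ ∀ (δ : ℝ) (v : E3 → E3) (z : E3 → M3), 0 < δ →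
    HS v z → (∀ i, Integrable (rho δ v i)) ∧ ∀ i, ∫ x, |rho δ v i x| ≤ C * ∫ x, ‖z x‖ ^ 2 := by
  obtain ⟨C, hC, hb⟩ := hk_bound e0
  set V : ℝ := (volume : Measure E3).real (ball (0 : E3) 1) with hV
  have hV0 : 0 ≤ V := measureReal_nonneg
  refine ⟨9 * C * V + 1, by positivity, fun δ v z hδ h => ?_⟩
  have hz0 : 0 ≤ ∫ x, ‖z x‖ ^ 2 := integral_nonneg fun x => sq_nonneg _
  obtain ⟨hQ, hQ2⟩ := QQ_int h hδ
  -- the function on the product
  let F : Fin 3 → E3 × E3 → ℝ := fun i p =>
    ∑ k, ∑ j, (v p.2 k - v p.1 k) * (v p.2 j - v p.1 j) * (-pd j (hk δ i k) (p.1 - p.2))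
  have mF : ∀ i, AEStronglyMeasurable (F i) ((volume : Measure E3).prod volume) := by
    intro i
    have m1 : ∀ k : Fin 3, AEStronglyMeasurable (fun p : E3 × E3 => v p.1 k)
        ((volume : Measure E3).prod volume) := fun k => (comp_memLp h.mv k).1.comp_fst
    have m2 : ∀ k : Fin 3, AEStronglyMeasurable (fun p : E3 × E3 => v p.2 k)
        ((volume : Measure E3).prod volume) := fun k => (comp_memLp h.mv k).1.comp_snd
    have m3 : ∀ k j : Fin 3, AEStronglyMeasurable (fun p : E3 × E3 => -pd j (hk δ i k) (p.1 - p.2))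
        ((volume : Measure E3).prod volume) := fun k j =>
      (((cs_hk e0 hδ i k).pd j).1.continuous.comp (continuous_fst.sub continuous_snd)).neg.aestronglyMeasurable
    refine Finset.aestronglyMeasurable_fun_sum _ fun k _ => Finset.aestronglyMeasurable_fun_sum _ fun j _ => ?_
    exact (((m2 k).sub (m1 k)).mul ((m2 j).sub (m1 j))).mul (m3 k j)
  have hFb : ∀ i (p : E3 × E3), ‖F i (p.1, p.1 + p.2)‖ ≤ 9 * (C / δ ^ 5) * QQ δ v p := by
    intro i p
    unfold QQ
    by_cases hp : p.2 ∈ closedBall (0 : E3) δ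
    · rw [indicator_of_mem hp]
      have h1 : ∀ k j : Fin 3, ‖(v (p.1 + p.2) k - v p.1 k) * (v (p.1 + p.2) j - v p.1 j) *
          (-pd j (hk δ i k) (p.1 - (p.1 + p.2)))‖ ≤ ‖v (p.1 + p.2) - v p.1‖ ^ 2 * (C / δ ^ 5) := by
        intro k j
        have a1 : ∀ l : Fin 3, ‖v (p.1 + p.2) l - v p.1 l‖ ≤ ‖v (p.1 + p.2) - v p.1‖ := fun l =>
          PiLp.norm_apply_le (v (p.1 + p.2) - v p.1) l
        rw [norm_mul, norm_mul, norm_neg, sq]
        refine mul_le_mul (mul_le_mul (a1 k) (a1 j) (norm_nonneg _) (norm_nonneg _)) ?_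
          (norm_nonneg _) (by positivity)
        exact hb δ hδ i k j _
      refine (norm_sum_le_of_le _ fun k _ => norm_sum_le_of_le _ fun j _ => h1 k j).trans (le_of_eq ?_)
      simp only [Finset.sum_const, Finset.card_univ, Fintype.card_fin, nsmul_eq_mul]
      push_cast
      ring
    · rw [indicator_of_notMem hp, mul_zero]
      have h1 : F i (p.1, p.1 + p.2) = 0 := by
        refine Finset.sum_eq_zero fun k _ => Finset.sum_eq_zero fun j _ => ?_
        have h2 : δ < ‖p.1 - (p.1 + p.2)‖ := by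
          rw [sub_add_cancel_left, norm_neg]
          rw [mem_closedBall, dist_zero_right, not_le] at hp
          exact hp
        change _ * (-pd j (hk δ i k) (p.1 - (p.1 + p.2))) = 0
        rw [hk_supp e0 hδ i k j _ h2, neg_zero, mul_zero]
      rw [h1, norm_zero]
  have iFs : ∀ i, Integrable (fun p : E3 × E3 => F i (p.1, p.1 + p.2))
      ((volume : Measure E3).prod volume) := by
    intro i
    refine (hQ.const_mul (9 * (C / δ ^ 5))).mono' ?_ (Eventually.of_forall (hFb i))
    exact (mF i).comp_measurePreserving shear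
  have iF : ∀ i, Integrable (F i) ((volume : Measure E3).prod volume) := fun i =>
    (shear.integrable_comp (mF i)).1 (iFs i)
  refine ⟨fun i => (iF i).integral_prod_left, fun i => ?_⟩
  have b1 : ∫ x, |rho δ v i x| ≤ ∫ p, ‖F i p‖ ∂((volume : Measure E3).prod volume) := by
    rw [integral_prod _ (iF i).norm]
    refine integral_mono_of_nonneg (Eventually.of_forall fun x => abs_nonneg _)
      (iF i).norm.integral_prod_left (Eventually.of_forall fun x => ?_)
    have := norm_integral_le_integral_norm (μ := (volume : Measure E3)) (fun y => F i (x, y))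
    exact this
  have b2 : ∫ p, ‖F i p‖ ∂((volume : Measure E3).prod volume) =
      ∫ p : E3 × E3, ‖F i (p.1, p.1 + p.2)‖ ∂((volume : Measure E3).prod volume) := by
    nth_rewrite 1 [← shear.map_eq]
    rw [integral_map shear.measurable.aemeasurable]
    rw [shear.map_eq]
    exact (mF i).norm
  have b3 : ∫ p : E3 × E3, ‖F i (p.1, p.1 + p.2)‖ ∂((volume : Measure E3).prod volume) ≤
      9 * (C / δ ^ 5) * ∫ p, QQ δ v p ∂((volume : Measure E3).prod volume) := by
    rw [← integral_const_mul]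
    exact integral_mono_of_nonneg (Eventually.of_forall fun p => norm_nonneg _)
      (hQ.const_mul _) (Eventually.of_forall (hFb i))
  have b4 : (volume : Measure E3).real (closedBall (0 : E3) δ) = δ ^ 3 * V := by
    rw [hV, Measure.real, Measure.addHaar_closedBall volume (0 : E3) hδ.le, ENNReal.toReal_mul,
      ENNReal.toReal_ofReal (by positivity), finrank_euclideanSpace_fin]
    rfl
  rw [b4] at hQ2
  calc ∫ x, |rho δ v i x| ≤ 9 * (C / δ ^ 5) * (δ ^ 2 * (∫ x, ‖z x‖ ^ 2) * (δ ^ 3 * V)) := by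
        refine b1.trans (b2.le.trans (b3.trans ?_))
        exact mul_le_mul_of_nonneg_left hQ2 (by positivity)
    _ = 9 * C * V * ∫ x, ‖z x‖ ^ 2 := by
        field_simp
    _ ≤ (9 * C * V + 1) * ∫ x, ‖z x‖ ^ 2 := by
        refine mul_le_mul_of_nonneg_right (by linarith) hz0

/-- HV-N -/
theorem stmN (e0 : StmE0) (w0 : StmW) : StmN := by
  obtain ⟨C, hC, hb⟩ := rho_bound e0
  refine ⟨C, hC, fun ν δ v z hδ h => ⟨rho δ v, (hb δ v z hδ h).1, (hb δ v z hδ h).2, fun i x => ?_⟩⟩
  have h1 := NN_eq e0 w0 ν δ v z hδ h i x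
  have h2 : (fun y => wu δ v y i) = fun y => wd δ z y i := by
    funext y
    rw [(w0.2 v z h δ hδ).1 y]
  rw [h2] at h1
  exact h1

end Pool.Agent.Q211.HV
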